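import Pool.Agent.H61.KW.TC

/-!
# Kuiper board KW, C9 (`T_A3F`): transversal faces are simplicial
-/

set_option autoImplicit false
set_option linter.unusedVariables false

open Topology Set
open Pool.Agent.H59 Pool.Agent.H64.LB Pool.Agent.H61.KU Pool.Agent.H61.KV Pool.Agent.H61.KW

namespace Pool.Agent.H87.KW.A3F

theorem pf_A3F (h : T_TRR) (h2 : T_A3P) (h3 : T_A3A) (h4 : T_A3C) (h5 : T_SHR) (h6 : T_DSB)
    (h7 : T_SCE) (h8 : T_LDI) (h9 : T_SM2) (h10 : T_TFT) (h11 : T_XSP) : T_A3F := by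
  intro V _ _ _ m K S q q' hq hq' hov
  have hC := K.cc
  have hqC := K.mem q hq
  have hq'C := K.mem q' hq'
  obtain ⟨-, t, -, ht, htq, htq', -, -, -⟩ := h V m K q q' hq hq' hov
  obtain ⟨a, hP, hTa⟩ := h2 V m K S q q' t hq hq' hov ht htq htq'
  obtain ⟨a', hP', hTa'⟩ := h2 V m K S q' q t hq' hq (ov_symm hov) ht htq' htq
  by_contra hns
  have hns3 : ¬ Smp (Cn m) 3 a := fun hs => hns ((h9 V (Cn m) q hC hqC).2.2.1 a t hP hs)
  obtain ⟨hβ, -, hscx⟩ := h3 V m K S q q' t a a' hq hq' ht hP hP' hTa hTa' hns3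
  obtain ⟨hc1, hc2⟩ := h4 V m K q' a hq' hTa hP.rk3 hns3
  have haC : a ∈ Cn m := hP.ds.1
  have ha'C : a' ∈ Cn m := hP'.ds.1
  have haq : a ∈ Fc (Cn m) q := tra hC hqC hP.mem (left_fc hC haC ht.1)
  have ha'q' : a' ∈ Fc (Cn m) q' := tra hC hq'C hP'.mem (left_fc hC ha'C ht.1)
  -- the common ray is not in the face of `a + β`
  have htn : ∀ β ∈ Fc (Cn m) a', Ex (Cn m) β → t ∉ Fc (Cn m) (a + β) := by
    intro β hβa' hβe hn
    have hβq' : β ∈ Fc (Cn m) q' := tra hC hq'C ha'q' hβa'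
    have e1 : t ∈ Fc (Cn m) β := foot_face hC hq'C haC hβq' hTa.foot htq' hn
    have e2 : β ∈ Fc (Cn m) t := ex_symm hC hβe ht e1
    exact hβe.2.1 (hP'.ds.2.2.1 β (mem_sp hβa') (mem_sp e2))
  have hβa : ∀ β ∈ Fc (Cn m) a', Ex (Cn m) β → β ∉ Fc (Cn m) a := by
    intro β hβa' hβe hn
    exact hβe.2.1 (foot_disj hC (K.ftd q' hq') haC hTa.foot hn (tra hC hq'C ha'q' hβa'))
  -- (1)
  have hsix : ∀ u, Ex (Cn m) u → u ∈ Fc (Cn m) a → ∀ β ∈ Fc (Cn m) a', Ex (Cn m) β →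
      rk (Cn m) (β + u) = 3 → rk (Cn m) (a + β) = 6 := by
    intro u hu hua β hβa' hβe hr3
    have hβq' : β ∈ Fc (Cn m) q' := tra hC hq'C ha'q' hβa'
    rcases hc1 β hβe hβq' with ⟨-, hE⟩ | h6'
    · exfalso
      have e1 : q ∉ Fc (Cn m) (a + β) := fun hn =>
        htn β hβa' hβe (tra hC (hC.add _ haC _ hβe.1) hn htq)
      have e2 : Pyr (Cn m) (a + β) a β :=
        h5 V m K (a + β) q a β hE hq e1 (left_fc hC haC hβe.1) haq hP.rk3 hβe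
          (right_fc hC haC hβe.1) (hβa β hβa' hβe)
      have e3 : Dsum (Cn m) u β :=
        (h6 V (Cn m) a β hC e2.ds).2.2.1 u hua β (self hC hβe.1)
      have e4 := (h6 V (Cn m) u β hC e3).1
      rw [ex_rk hC hu, ex_rk hC hβe, add_comm u β, hr3] at e4
      omega
    · exact h6'
  -- (2)
  obtain ⟨u₀, hu₀, hu₀a, -⟩ := h11 V (Cn m) a ⊥ hC haC (by rw [finrank_bot, hP.rk3]; norm_num)
  obtain ⟨-, v, hva', hv, hv3⟩ := hβ u₀ hu₀ hu₀a
  have hvq' : v ∈ Fc (Cn m) q' := tra hC hq'C ha'q' hva'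
  have hv6 : rk (Cn m) (a + v) = 6 := hsix u₀ hu₀ hu₀a v hva' hv hv3
  have hthree : ∀ u, Ex (Cn m) u → u ∈ Fc (Cn m) a → rk (Cn m) (v + u) = 3 := by
    intro u hu hua
    obtain ⟨-, β, hβa', hβe, hr3⟩ := hβ u hu hua
    have e1 : rk (Cn m) (a + β) = 6 := hsix u hu hua β hβa' hβe hr3
    have e2 : β ∈ Fc (Cn m) v := hc2 v β hv hβe hvq' (tra hC hq'C ha'q' hβa') hv6 e1
    have e3 : v ∈ Fc (Cn m) β := ex_symm hC hv hβe e2
    have e4 : Fc (Cn m) (v + u) = Fc (Cn m) (β + u) :=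
      fc_add_congr hC hβe.1 hu.1 e3 e2 (self hC hu.1) (self hC hu.1)
    have e5 : rk (Cn m) (v + u) = rk (Cn m) (β + u) := by
      unfold Pool.Agent.H61.KW.rk Sp
      rw [e4]
    rw [e5, hr3]
  -- (3)
  have hav : a + v ∈ Cn m := hC.add _ haC _ hv.1
  obtain ⟨-, hMav, -⟩ := h10 V m K q' a v hq' hTa hvq' hv.2.1
  obtain ⟨p, hpav, hp⟩ := K.exi (a + v) hav hMav
  have hpC := K.mem p hp
  have hvp : v ∈ Fc (Cn m) p := by
    obtain ⟨x, hx, hxp, hxq'⟩ := K.meet p q' hp hq'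
    have e1 : x ∈ Fc (Cn m) v :=
      foot_face hC hq'C haC hvq' hTa.foot hxq' (tra hC hav hpav hxp)
    exact tra hC hpC hxp (ex_symm hC hv hx e1)
  obtain ⟨a₀, ha₀, ha₀p, ha₀q⟩ := K.meet p q hp hq
  have ha₀a : a₀ ∈ Fc (Cn m) a := by
    have hat : a + t ∈ Cn m := hC.add _ haC _ ht.1
    rcases (h6 V (Cn m) a t hC hP.ds).2.2.2.2.2 a₀ ha₀ (tra hC hat hP.mem' ha₀q) with e1 | e1
    · exact e1
    · exfalso
      exact htn v hva' hv (tra hC hav hpav (tra hC hpC ha₀p (ex_symm hC ht ha₀ e1)))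
  obtain ⟨a₁, ha₁, ha₁a, ha₁s⟩ := h11 V (Cn m) a (Submodule.span ℝ {a₀}) hC haC
    (by rw [finrank_span_singleton ha₀.2.1, hP.rk3]; norm_num)
  have ha₁₀ : a₁ ∉ Fc (Cn m) a₀ := by
    intro hn
    obtain ⟨c, -, rfl⟩ := ex_mem hC ha₀ hn
    exact ha₁s (Submodule.smul_mem _ c (Submodule.mem_span_singleton_self a₀))
  have haa : a ∈ Fc (Cn m) (a₀ + a₁) :=
    h7 V (Cn m) a a₀ a₁ hC haC hscx ha₀ ha₁ ha₀a ha₁a ha₁₀
  have hr3 : rk (Cn m) (a₁ + a₀) = 3 := by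
    rw [add_comm]
    have e1 := rk_mono hC haC (add_fc hC haC ha₀a ha₁a)
    have e2 := rk_mono hC (hC.add _ ha₀.1 _ ha₁.1) haa
    have e3 := hP.rk3
    omega
  -- (4)
  have ha₁p : a₁ ∉ Fc (Cn m) p := by
    intro hn
    have e1 : a ∈ Fc (Cn m) p := tra hC hpC (add_fc hC hpC ha₀p hn) haa
    have e2 := rk_mono hC hpC (add_fc hC hpC e1 hvp)
    rw [hv6, K.rk4 p hp] at e2
    omega
  have hfoot : Foot (Cn m) p a₁ a₁ := foot_ex hC (K.ftd p hp) ha₁ ha₁p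
  have hr6 : rk (Cn m) (a₁ + p) ≤ 6 := by
    rw [← hv6]
    exact rk_mono hC hav (add_fc hC hav (tra hC hav (left_fc hC haC hv.1) ha₁a) hpav)
  have hva₀ : v ∉ Fc (Cn m) a₀ := fun hn => hβa v hva' hv (tra hC haC ha₀a hn)
  have e1 := h8 V (Cn m) p a₁ p v a₀ 0 hC (K.ftd p hp) ha₁.1 hfoot (self hC hpC) hvp ha₀p
    hC.zero (by
      intro r
      constructor
      · intro hr
        rw [fc_of_zero hC hr]
        exact ⟨zero_fc hC hv.1, zero_fc hC ha₀.1⟩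
      · rintro ⟨hr, hr'⟩
        rw [ex_meet hC ha₀.1 hv hva₀ hr hr']
        exact self hC hC.zero)
  have e2 : rk (Cn m) (a₁ + v) = 3 := by
    rw [add_comm]
    exact hthree a₁ ha₁ ha₁a
  rw [e2, hr3, rk_zero hC, K.rk4 p hp, add_zero, add_zero, ex_rk hC ha₁, ex_rk hC hv,
    ex_rk hC ha₀] at e1
  omega

end Pool.Agent.H87.KW.A3F
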