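import Pool.Agent.H61.KW.TC

/-!
# Kuiper board KW, C19 (`T_DSC`): direct sums with a base which is not a triangle
-/

set_option autoImplicit false
set_option linter.unusedVariables false

open Topology Set
open Pool.Agent.H59 Pool.Agent.H64.LB Pool.Agent.H61.KU Pool.Agent.H61.KV Pool.Agent.H61.KW

namespace Pool.Agent.H87.KW.DSC

theorem pf_DSC (h : T_DSB) (h2 : T_F5A) (h3 : T_TTT) (h4 : T_SM2) (h5 : T_VEX) (h6 : T_XOU)
    (h7 : T_XSP) : T_DSC := by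
  intro V _ _ _ m K γ a z hD hall hM hγ6 ha3 hna hz hzγ hEz
  have hC := K.cc
  have hγC : γ ∈ Cn m := hD.1
  have haC : a ∈ Cn m := hD.2.1
  obtain ⟨-, -, hDs, hDl, -, -⟩ := h V (Cn m) γ a hC hD
  -- invariance of the set of good rays
  have hinv : ∀ y y', Ex (Cn m) y → Ex (Cn m) y' → Ef m (a + y) → y' ∈ Fc (Cn m) y →
      Ef m (a + y') := by
    intro y y' hy hy' hE hyy
    have e1 : y ∈ Fc (Cn m) y' := ex_symm hC hy hy' hyy
    have e3 : Fc (Cn m) (a + y') = Fc (Cn m) (a + y) :=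
      fc_add_congr hC haC hy.1 (self hC haC) (self hC haC) hyy e1
    refine K.congr (a + y) (a + y') hE ?_ ?_
    · rw [← e3]
      exact self hC (hC.add _ haC _ hy'.1)
    · rw [e3]
      exact self hC (hC.add _ haC _ hy.1)
  -- two rays in a face of rank 2
  have hint : ∀ y x, Ex (Cn m) y → Ex (Cn m) x → y ∈ Fc (Cn m) γ → x ∈ Fc (Cn m) γ →
      Ef m (a + y) → x ∉ Fc (Cn m) y → rk (Cn m) (x + y) = 2 → Ef m (a + x) := by
    intro y x hy hx hyγ hxγ hE hxy hr2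
    have hay : a + y ∈ Cn m := hC.add _ haC _ hy.1
    have e1 : x ∉ Fc (Cn m) (a + y) := by
      intro hxa
      rw [add_comm] at hxa
      exact hxy (hDl y hyγ a (self hC haC) x hxγ hxa)
    have e2 : rk (Cn m) ((a + y) + x) = 5 := by
      have e3 : (a + y) + x = (x + y) + a := by abel
      rw [e3, (h V (Cn m) (x + y) a hC
        (hDs (x + y) (add_fc hC hγC hxγ hyγ) a (self hC haC))).1, hr2, ha3]
    obtain ⟨-, a₁, z₁, hP₁, hE₁⟩ := h2 V m K (a + y) x hE hx e1 e2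
    have hP : Pyr (Cn m) (a + y) a y :=
      ⟨ha3, hy, (h V (Cn m) y a hC (hDs y hyγ a (self hC haC))).2.1, self hC hay, self hC hay⟩
    have hns : ¬ Smp (Cn m) 4 (a + y) := fun hs =>
      hna ((h4 V (Cn m) (a + y) hC hay).2.2.2 a y hP hs)
    obtain ⟨-, e4, e5⟩ := h3 V (Cn m) (a + y) a y a₁ z₁ hC hay hP hP₁ hns
    have e6 : Fc (Cn m) (a + x) = Fc (Cn m) (a₁ + x) :=
      fc_add_congr hC hP₁.ds.1 hx.1 e5 e4 (self hC hx.1) (self hC hx.1)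
    refine K.congr (a₁ + x) (a + x) hE₁ ?_ ?_
    · rw [← e6]
      exact self hC (hC.add _ haC _ hx.1)
    · rw [e6]
      exact self hC (hC.add _ hP₁.ds.1 _ hx.1)
  -- good rays are in all essential faces inside the face of `γ`
  have hin : ∀ p y, Ef m p → p ∈ Fc (Cn m) γ → Ex (Cn m) y → y ∈ Fc (Cn m) γ → Ef m (a + y) →
      y ∈ Fc (Cn m) p := by
    intro p y hp hpγ hy hyγ hE
    obtain ⟨x, hx, hxp, hxa⟩ := K.meet p (a + y) hp hE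
    have hxγ : x ∈ Fc (Cn m) γ := tra hC hγC hpγ hxp
    rw [add_comm] at hxa
    have e1 : x ∈ Fc (Cn m) y := hDl y hyγ a (self hC haC) x hxγ hxa
    exact tra hC (K.mem p hp) hxp (ex_symm hC hy hx e1)
  -- an essential face inside the face of `γ`
  obtain ⟨p₀, hp₀γ, hp₀⟩ := K.exi γ hγC hM
  have hp₀C := K.mem p₀ hp₀
  obtain ⟨u, hu, hua, -⟩ := h7 V (Cn m) a ⊥ hC haC (by rw [finrank_bot, ha3]; norm_num)
  have hDu : Dsum (Cn m) p₀ u := hDs p₀ hp₀γ u hua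
  have hup : u ∉ Fc (Cn m) p₀ := fun hn =>
    hu.2.1 (hDu.2.2.1 u (mem_sp hn) (self_sp hC hu.1))
  have hr5 : rk (Cn m) (p₀ + u) = 5 := by
    rw [(h V (Cn m) p₀ u hC hDu).1, K.rk4 p₀ hp₀, ex_rk hC hu]
  obtain ⟨-, b, w, hPb, -⟩ := h2 V m K p₀ u hp₀ hu hup hr5
  have hbC : b ∈ Cn m := hPb.ds.1
  have hwC : w ∈ Cn m := hPb.ds.2.1
  have hbw : b + w ∈ Cn m := hC.add _ hbC _ hwC
  have hwp : w ∈ Fc (Cn m) p₀ := tra hC hp₀C hPb.mem (right_fc hC hbC hwC)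
  have hbp : b ∈ Fc (Cn m) p₀ := tra hC hp₀C hPb.mem (left_fc hC hbC hwC)
  have hwγ : w ∈ Fc (Cn m) γ := tra hC hγC hp₀γ hwp
  obtain ⟨-, -, hbs, -, -, hbe⟩ := h V (Cn m) b w hC hPb.ds
  have hsplit : ∀ x, Ex (Cn m) x → x ∈ Fc (Cn m) p₀ → x ∈ Fc (Cn m) b ∨ x ∈ Fc (Cn m) w :=
    fun x hx hxp => hbe x hx (tra hC hbw hPb.mem' hxp)
  -- a ray of `b` and the apex
  have hpair : ∀ x, Ex (Cn m) x → x ∈ Fc (Cn m) b →
      rk (Cn m) (x + w) = 2 ∧ x ∉ Fc (Cn m) w ∧ w ∉ Fc (Cn m) x := by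
    intro x hx hxb
    have e1 : Dsum (Cn m) x w := hbs x hxb w (self hC hwC)
    refine ⟨?_, fun hn => ?_, fun hn => ?_⟩
    · rw [(h V (Cn m) x w hC e1).1, ex_rk hC hx, ex_rk hC hPb.ex]
    · exact hx.2.1 (e1.2.2.1 x (self_sp hC hx.1) (mem_sp hn))
    · exact hPb.ex.2.1 (e1.2.2.1 w (mem_sp hn) (self_sp hC hwC))
  have hEw : Ef m (a + w) := by
    have hzp : z ∈ Fc (Cn m) p₀ := hin p₀ z hp₀ hp₀γ hz hzγ hEz
    rcases hsplit z hz hzp with hzb | hzw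
    · obtain ⟨e1, -, e3⟩ := hpair z hz hzb
      exact hint z w hz hPb.ex hzγ hwγ hEz e3 (by rw [add_comm]; exact e1)
    · exact hinv z w hz hPb.ex hEz (ex_symm hC hPb.ex hz hzw)
  have hEx : ∀ x, Ex (Cn m) x → x ∈ Fc (Cn m) p₀ → Ef m (a + x) := by
    intro x hx hxp
    rcases hsplit x hx hxp with hxb | hxw
    · obtain ⟨e1, e2, -⟩ := hpair x hx hxb
      exact hint w x hPb.ex hx hwγ (tra hC hγC hp₀γ hxp) hEw e2 e1
    · exact hinv w x hPb.ex hx hEw hxw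
  -- all essential faces inside the face of `γ` are equal
  have hone : ∀ p₁, Ef m p₁ → p₁ ∈ Fc (Cn m) γ → p₁ ∈ Fc (Cn m) p₀ := by
    intro p₁ hp₁ hp₁γ
    have hp₁C := K.mem p₁ hp₁
    have e1 : p₀ ∈ Fc (Cn m) p₁ := by
      by_contra hn
      obtain ⟨x, hx, hxp, hxn⟩ := h6 V (Cn m) (Fc (Cn m) p₁) p₀ hC hp₀C (zero_fc hC hp₁C)
        (fun c hc d hd => add_fc hC hp₁C hc hd) hn
      exact hxn (hin p₁ x hp₁ hp₁γ hx (tra hC hγC hp₀γ hxp) (hEx x hx hxp))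
    exact of_rk hC hp₁C e1 (by rw [K.rk4 p₁ hp₁, K.rk4 p₀ hp₀])
  have hγp : γ ∈ Fc (Cn m) p₀ := by
    by_contra hn
    obtain ⟨x, hx, hxγ, hxn⟩ := h6 V (Cn m) (Fc (Cn m) p₀) γ hC hγC (zero_fc hC hp₀C)
      (fun c hc d hd => add_fc hC hp₀C hc hd) hn
    obtain ⟨q, hq, hqγ, hxq⟩ := h5 V m K γ x hγC hM hx hxγ
    exact hxn (tra hC hp₀C (hone q hq hqγ) hxq)
  have e1 := rk_mono hC hp₀C hγp
  rw [hγ6, K.rk4 p₀ hp₀] at e1
  omega

end Pool.Agent.H87.KW.DSC
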