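import Pool.Agent.H61.KW.TC

/-!
# Kuiper board KW, C11 (`T_R5C`): there is a transversal foot of rank 4
-/

set_option autoImplicit false
set_option linter.unusedVariables false

open Topology Set
open Pool.Agent.H59 Pool.Agent.H64.LB Pool.Agent.H61.KU Pool.Agent.H61.KV Pool.Agent.H61.KW

namespace Pool.Agent.H87.KW.R5C

theorem pf_R5C (h : T_CEL4) (h2 : T_LDE) (h3 : Pool.Agent.H61.KW.T_SEG) (h4 : T_SPG) (h5 : T_DSB) (h6 : T_F5A)
    (h7 : T_TTT) (h8 : T_EPT) (h9 : Pool.Agent.H61.KW.T_ZED) (h10 : T_XOU) (h11 : T_XSP) : T_R5C := by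
  intro V _ _ _ m K S q hq hns
  have hC := K.cc
  have hqC := K.mem q hq
  by_contra hcon
  push Not at hcon
  have hfive : ∀ f, Tf m q f → 5 ≤ rk (Cn m) f := by
    intro f hf
    have e1 := h V m K S q f hq hns hf
    have e2 := hcon f hf
    omega
  obtain ⟨g, hg⟩ := K.tr q hq
  have hle : rk (Cn m) g ≤ 5 :=
    (h2 V m K q g 0 0 q hq hg (self hC hqC) (zero_fc hC hqC) (zero_fc hC hqC)
      (fun t ht _ => fc_of_zero hC ht)).2.1
  have hg5 : rk (Cn m) g = 5 := le_antisymm hle (hfive g hg)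
  have hmin : ∀ g' ∈ Fc (Cn m) g, g ∉ Fc (Cn m) g' → ¬ Ov (Cn m) q g' := by
    intro g' hg' hn hov
    have e1 : Tf m q g' := ⟨mem_C hg', foot_down hC (K.ftd q hq) hg.mem hg.foot hg', hov⟩
    have e2 := hfive g' e1
    have e3 := rk_lt hC hg.mem hg' hn
    omega
  have hdis : ∀ v, v ∈ Sp (Cn m) q → v ∈ Sp (Cn m) g → v = 0 := by
    intro v hv hv'
    refine sp_of_zero hC (h4 V (Cn m) q g 0 hC (K.ftd q hq) hg.mem hC.zero ?_ v hv hv')
    intro t ht ht'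
    rw [foot_disj hC (K.ftd q hq) hg.mem hg.foot ht' ht]
    exact self hC hC.zero
  have hinf : Sp (Cn m) g ⊓ Sp (Cn m) q = ⊥ := by
    rw [eq_bot_iff]
    rintro v ⟨hv, hv'⟩
    exact (Submodule.mem_bot ℝ).2 (hdis v hv' hv)
  have htop : Sp (Cn m) g ⊔ Sp (Cn m) q = ⊤ := by
    apply Submodule.eq_top_of_finrank_eq
    have e1 := Submodule.finrank_sup_add_finrank_inf_eq (Sp (Cn m) g) (Sp (Cn m) q)
    have e2 : Module.finrank ℝ (Sp (Cn m) g) = 5 := hg5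
    have e3 : Module.finrank ℝ (Sp (Cn m) q) = 4 := K.rk4 q hq
    rw [hinf, finrank_bot, e2, e3] at e1
    rw [K.fin]
    exact e1
  have hseg : ∀ r ∈ Cn m, ∃ u ∈ Fc (Cn m) g, ∃ v ∈ Fc (Cn m) q, r = u + v := by
    intro r hr
    refine h3 V (Cn m) q g hC (K.ftd q hq) hg.mem hg.foot hg.ov hmin r hr ?_
    rw [htop]
    exact Submodule.mem_top
  have hgq : Dsum (Cn m) g q :=
    ⟨hg.mem, hqC, fun v hv hv' => hdis v hv' hv, fun r hr => hseg r (mem_C hr)⟩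
  have hqg : Dsum (Cn m) q g := (h5 V (Cn m) g q hC hgq).2.1
  have hds := (h5 V (Cn m) q g hC hqg).2.2.1
  -- the pyramid decomposition for an extreme ray of the foot
  have hpyr : ∀ x, Ex (Cn m) x → x ∈ Fc (Cn m) g →
      ∃ a z, Pyr (Cn m) q a z ∧ Ef m (a + x) := by
    intro x hx hxg
    have e1 : x ∉ Fc (Cn m) q := fun hxq =>
      hx.2.1 (foot_disj hC (K.ftd q hq) hg.mem hg.foot hxg hxq)
    have e2 : Dsum (Cn m) q x := hds q (self hC hqC) x hxg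
    have e3 : rk (Cn m) (q + x) = 5 := by
      rw [(h5 V (Cn m) q x hC e2).1, K.rk4 q hq, ex_rk hC hx]
    exact (h6 V m K q x hq hx e1 e3).2
  obtain ⟨x₀, hx₀, hx₀g, -⟩ := h11 V (Cn m) g ⊥ hC hg.mem (by rw [finrank_bot, hg5]; norm_num)
  obtain ⟨a, z, hP, hE⟩ := hpyr x₀ hx₀ hx₀g
  have haC : a ∈ Cn m := hP.ds.1
  have hzC : z ∈ Cn m := hP.ds.2.1
  have haq : a ∈ Fc (Cn m) q := tra hC hqC hP.mem (left_fc hC haC hzC)
  have hzq : z ∈ Fc (Cn m) q := tra hC hqC hP.mem (right_fc hC haC hzC)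
  have hef : ∀ x, Ex (Cn m) x → x ∈ Fc (Cn m) g → Ef m (a + x) := by
    intro x hx hxg
    obtain ⟨a', z', hP', hE'⟩ := hpyr x hx hxg
    obtain ⟨-, e1, e2⟩ := h7 V (Cn m) q a z a' z' hC hqC hP hP' hns
    have e3 : Fc (Cn m) (a + x) = Fc (Cn m) (a' + x) :=
      fc_add_congr hC hP'.ds.1 hx.1 e2 e1 (self hC hx.1) (self hC hx.1)
    refine K.congr (a' + x) (a + x) hE' ?_ ?_
    · rw [← e3]
      exact self hC (hC.add _ haC _ hx.1)
    · rw [e3]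
      exact self hC (hC.add _ hP'.ds.1 _ hx.1)
  obtain ⟨p, hp, hzp, hpq⟩ := h8 V m K q z hq hP.ex hzq
  have hpa : ∀ r ∈ Fc (Cn m) p, r ∈ Fc (Cn m) a → r = 0 := by
    intro r hr hr'
    have e1 : r ∈ Fc (Cn m) z := hpq r hr (tra hC hqC haq hr')
    exact hP.ds.2.2.1 r (mem_sp hr') (mem_sp e1)
  have hall : ∀ x, Ex (Cn m) x → x ∈ Fc (Cn m) g → x ∈ Fc (Cn m) p := by
    intro x hx hxg
    exact h9 V m K p a x hp (hef x hx hxg) hx (hds a haq x hxg) hpa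
  have hpC := K.mem p hp
  have hgp : g ∈ Fc (Cn m) p := by
    by_contra hn
    obtain ⟨x, hx, hxg, hxp⟩ := h10 V (Cn m) (Fc (Cn m) p) g hC hg.mem (zero_fc hC hpC)
      (fun a ha b hb => add_fc hC hpC ha hb) hn
    exact hxp (hall x hx hxg)
  have e1 := rk_mono hC hpC hgp
  rw [hg5, K.rk4 p hp] at e1
  omega

end Pool.Agent.H87.KW.R5C
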